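import Pool.Agent.Run7.h261.CG.Final

/-!
# The Calegari-Geraghty vanishing conjecture for `GL_2` over number fields with two archimedean places

Let `F` be a number field with exactly two archimedean places: a totally complex quartic field (for
example a quartic CM field), a cubic field with one real place, or a real quadratic field. Let
`G = Res_{F/ℚ} GL_2`. Then `q_0 = 2`, and the vanishing conjecture for `G` is: if a system of Hecke
eigenvalues with a non-Eisenstein Galois representation `ρ` occurs in `H^i(Y(U), W)` then
`2 ≤ i ≤ 2 + ℓ_0 = dim Y - 2`. We prove this conjecture from four classical theorems, which are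
hypotheses in the formal statement: strong approximation for `SL_2` (Eichler, Kneser), the
finiteness of class numbers (Borel), the congruence subgroup property for `SL_2(F)` (Serre), and
Poincaré duality together with the fact that the cohomology of the boundary is Eisenstein
(Borel-Serre). For all other number fields with more than one archimedean place we prove that the
degrees `0`, `1`, `dim Y - 1`, `dim Y` do not occur.

The cohomology is defined concretely: `Y(U) = G(F)^+ \ (X^+ × G(A_f) / U)` with `X^+` contractible, and
`U` has no torsion in its congruence subgroups (for example if it is neat), so `H^i(Y(U), W)` is the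
group cohomology of `G(F)^+` with values in the functions `f` on `G(A_f)` with `τ(u) f(x u) = f(x)` for
`u ∈ U`. The Hecke operators `T_v`, `S_v` are the sums of the right translations by the usual
representatives. The coefficients `W` are finite-dimensional representations of `U`, through the
places above `p`, over a finite field of characteristic `p`. This is sufficient for the conjecture:
if `H^i(Y(U), W)_m` is not zero for a finitely generated `O`-module `W` then it is not zero for some
subquotient of `W` that is killed by the maximal ideal of `O` (long exact sequences, Nakayama), and
then an eigenclass occurs over the residue field of `m`.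

Idea of the proof. Let `n = N(v) + 1` be the degree of `T_v`, and `E_v = T_v² - n² S_v`. On functions which
are invariant under left translations by `SL_2(A_f)` the operator `E_v` is zero. (0) By strong
approximation this is the case in degree zero. (1) Let `c` be a cocycle of `G(F)^+`. Its restriction to
`SL_2(F) ∩ x V x⁻¹` is a homomorphism `φ_x` to a finite group. The congruence subgroup property says that
`φ_x` is invariant under the conjugation by an element of `SL_2(F)` on a smaller congruence subgroup,
and by strong approximation `φ_{s x} = φ_x` for `s ∈ SL_2(A_f)` on a smaller congruence subgroup. So
`E_v c` is a coboundary on `SL_2(F)` at some deeper level (`exists_bd_eis`). (2) Then `E_w² E_v c` is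
a coboundary at the original level for all places `w` at which the deeper level is maximal
(`exists_equi`). So an eigenclass satisfies `(a_w² - n_w² d_w)² (a_v² - n_v² d_v) = 0` for all `v` and almost
all `w`, and therefore `a_w² = (N(w) + 1)² d_w` for almost all `w`. (3) By Chebotarev's theorem (proved in
the starting files) the elements of the Galois group which fix the `p`-th roots of unity act by
matrices with a double eigenvalue, and this implies that `ρ` has an eigenvector over the algebraic
closure of `k` (`exists_common`). (4) The upper bound follows by duality.
-/

set_option autoImplicit false

namespace Pool.Agent.Results.MP_34be05_nt.TwoArchimedeanPlaces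

open Pool.Agent.Run7.h261.CG Pool.Agent.W401.Cheb NumberField IsDedekindDomain

/-- If a system of Hecke eigenvalues occurs in `H^i(Y(U), W)` and the representation `ρ` which is
attached to it is not Eisenstein then the degree `i` is in the set `s`. -/
def OccursOnlyIn (F : Type) [Field F] [NumberField F] (s : Set ℕ) : Prop :=
  ∀ (k : Type) [Field k] [Finite k] (L : Level F k) (i : ℕ) (a d : HeightOneSpectrum (𝓞 F) → k)
    (ρ : GK F →* Matrix.GeneralLinearGroup (Fin 2) k), L.Attached a d ρ → NonEisenstein ρ →
    L.Occurs i a d → i ∈ s

/-- **The vanishing conjecture for `GL_2` over the number fields with two archimedean places.** The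
hypotheses are known theorems: strong approximation, finiteness of class numbers, the congruence
subgroup property (for number fields with at least two archimedean places), and Poincaré duality
with Eisenstein cohomology of the boundary. -/
theorem result (F : Type) [Field F] [NumberField F] (hSA : StrongApproximation F)
    (hF : FiniteClassNumbers F) (hCSP : CongruenceSubgroupProperty F) :
    OccursOnlyIn F (Set.Ici 2) ∧
    (Duality F → OccursOnlyIn F (Set.Icc 2 (dimY F - 2)) ∧
      (Fintype.card (InfinitePlace F) = 2 → OccursOnlyIn F (Set.Icc (q0 F) (q0 F + ell0 F)))) := by
  have h1 : OccursOnlyIn F (Set.Ici 2) := fun k _ _ L i a d ρ hρ hne hx =>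
    two_le hSA hF hCSP L hρ hne hx
  refine ⟨h1, fun hD => ?_⟩
  have h2 : OccursOnlyIn F (Set.Icc 2 (dimY F - 2)) := fun k _ _ L i a d ρ hρ hne hx => by
    have h3 := two_le hSA hF hCSP L hρ hne hx
    have h4 := add_two_le hSA hF hCSP hD L hρ hne hx
    exact ⟨h3, by omega⟩
  refine ⟨h2, fun hc k _ _ L i a d ρ hρ hne hx => ?_⟩
  have h3 := two_le hSA hF hCSP L hρ hne hx
  have h4 := add_two_le hSA hF hCSP hD L hρ hne hx
  have h5 := InfinitePlace.card_eq_nrRealPlaces_add_nrComplexPlaces F
  unfold dimY at h4
  unfold q0 ell0
  exact ⟨by omega, by omega⟩

end Pool.Agent.Results.MP_34be05_nt.TwoArchimedeanPlaces
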